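import Pool.Agent.Q253.NF.Stm

set_option autoImplicit false

/-!
# Project NF (helper253), job LA: bounded means exclude zeros and poles off the line

The proof does not use the explicit formula: the transform of the prime sum continues to `Re z > 0`, so the same holds for
`∑ n i * logDeriv (X i)`, whose residues are the `nn D n a`.
-/

namespace Pool.Agent.Q184.NF

open MeasureTheory Filter Topology Set Complex
open scoped ComplexConjugate
open Pool.Agent.Q253.NF

theorem int_of_bound {g : ℝ → ℝ} (hg : Continuous g) (hg0 : ∀ u, 0 ≤ g u) {C : ℝ}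
    (h : ∀ᶠ U : ℝ in atTop, ∫ u in (0 : ℝ)..U, g u ≤ C * U) {σ : ℝ} (hσ : 0 < σ) :
    IntegrableOn (fun u => g u * Real.exp (-(σ * u))) (Ioi 0) := by
  obtain ⟨U0, hU0⟩ := (h.and (eventually_ge_atTop 1)).exists_forall_of_atTop
  set G : ℝ → ℝ := fun U => ∫ u in (0 : ℝ)..U, g u with hG
  have hmono : ∀ a b : ℝ, a ≤ b → G a ≤ G b := by
    intro a b hab
    have h1 : G b - G a = ∫ u in a..b, g u :=
      intervalIntegral.integral_interval_sub_left (hg.intervalIntegrable _ _) (hg.intervalIntegrable _ _)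
    have h2 : 0 ≤ ∫ u in a..b, g u := intervalIntegral.integral_nonneg hab fun u _ => hg0 u
    linarith
  set U1 : ℝ := max U0 1 with hU1
  have hU1' : 1 ≤ U1 := le_max_right _ _
  set K : ℝ := |C| * U1 with hK
  have hK0 : 0 ≤ K := by positivity
  have hbd : ∀ u : ℝ, 0 ≤ u → G u ≤ K * (1 + u) := by
    intro u hu
    rcases le_total U1 u with h1 | h1
    · have h2 := (hU0 u ((le_max_left _ _).trans h1)).1
      have h3 : C * u ≤ |C| * u := mul_le_mul_of_nonneg_right (le_abs_self _) hu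
      have h4 : |C| * u ≤ K * (1 + u) := by
        rw [hK, mul_assoc]
        refine mul_le_mul_of_nonneg_left ?_ (abs_nonneg _)
        nlinarith
      exact h2.trans (h3.trans h4)
    · have h2 := (hU0 U1 (le_max_left _ _)).1
      have h3 : C * U1 ≤ |C| * U1 := mul_le_mul_of_nonneg_right (le_abs_self _) (by linarith)
      have h4 : K ≤ K * (1 + u) := by nlinarith
      exact (hmono _ _ h1).trans (h2.trans (h3.trans h4))
  have hexp : ∀ u : ℝ, 0 ≤ u → (1 + u) * Real.exp (-(σ * u)) ≤ (1 + 2 / σ) * Real.exp (-(σ / 2) * u) := by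
    intro u hu
    have e : Real.exp (-(σ * u)) = Real.exp (-(σ / 2) * u) * Real.exp (-(σ / 2) * u) := by
      rw [← Real.exp_add]
      congr 1
      ring
    rw [e]
    have h1 : (1 + u) ≤ (1 + 2 / σ) * Real.exp (σ / 2 * u) := by
      have h2 := Real.add_one_le_exp (σ / 2 * u)
      have h3 : u = 2 / σ * (σ / 2 * u) := by field_simp
      have h4 : 1 ≤ Real.exp (σ / 2 * u) := Real.one_le_exp (by positivity)
      have h5 : 2 / σ * (σ / 2 * u) ≤ 2 / σ * Real.exp (σ / 2 * u) :=
        mul_le_mul_of_nonneg_left (by linarith) (by positivity)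
      rw [← h3] at h5
      linarith
    have h6 : Real.exp (σ / 2 * u) * Real.exp (-(σ / 2) * u) = 1 := by
      rw [← Real.exp_add]
      simp
    calc (1 + u) * (Real.exp (-(σ / 2) * u) * Real.exp (-(σ / 2) * u)) ≤
          ((1 + 2 / σ) * Real.exp (σ / 2 * u)) * (Real.exp (-(σ / 2) * u) * Real.exp (-(σ / 2) * u)) :=
          mul_le_mul_of_nonneg_right h1 (by positivity)
      _ = (1 + 2 / σ) * (Real.exp (σ / 2 * u) * Real.exp (-(σ / 2) * u)) * Real.exp (-(σ / 2) * u) := by ring
      _ = _ := by rw [h6, mul_one]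
  have hGd : ∀ u : ℝ, HasDerivAt G (g u) u := fun u =>
    intervalIntegral.integral_hasDerivAt_right (hg.intervalIntegrable _ _)
      (hg.stronglyMeasurableAtFilter _ _) hg.continuousAt
  have hGc : Continuous G := continuous_iff_continuousAt.2 fun u => (hGd u).continuousAt
  refine integrableOn_Ioi_of_intervalIntegral_norm_bounded
    (K * (1 + 2 / σ) + σ * (K * (1 + 2 / σ) * (2 / σ))) 0 (b := fun U : ℝ => U) (l := atTop) (fun U => ?_) tendsto_id ?_
  · exact (hg.mul (by fun_prop)).integrableOn_Ioc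
  · filter_upwards [eventually_ge_atTop 0] with U hU
    have e1 : ∫ u in (0 : ℝ)..U, ‖g u * Real.exp (-(σ * u))‖ = ∫ u in (0 : ℝ)..U, Real.exp (-(σ * u)) * g u := by
      refine intervalIntegral.integral_congr fun u _ => ?_
      rw [Real.norm_of_nonneg (mul_nonneg (hg0 u) (Real.exp_pos _).le), mul_comm]
    rw [e1]
    have hd : ∀ u : ℝ, HasDerivAt (fun u : ℝ => Real.exp (-(σ * u))) (Real.exp (-(σ * u)) * (-(σ * 1))) u := by
      intro u
      exact (((hasDerivAt_id u).const_mul σ).neg).exp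
    rw [intervalIntegral.integral_mul_deriv_eq_deriv_mul (fun u _ => hd u) (fun u _ => hGd u)
      ((by fun_prop : Continuous fun u : ℝ => Real.exp (-(σ * u)) * (-(σ * 1))).intervalIntegrable _ _)
      (hg.intervalIntegrable _ _)]
    have e2 : G 0 = 0 := by
      rw [hG]
      simp
    rw [e2, mul_zero, sub_zero]
    have e3 : ∫ u in (0 : ℝ)..U, Real.exp (-(σ * u)) * (-(σ * 1)) * G u =
        -(σ * ∫ u in (0 : ℝ)..U, Real.exp (-(σ * u)) * G u) := by
      rw [← intervalIntegral.integral_const_mul, ← intervalIntegral.integral_neg]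
      refine intervalIntegral.integral_congr fun u _ => ?_
      ring
    rw [e3, sub_neg_eq_add]
    have b1 : ∀ u : ℝ, 0 ≤ u → Real.exp (-(σ * u)) * G u ≤ (K * (1 + 2 / σ)) * Real.exp (-(σ / 2) * u) := by
      intro u hu
      calc Real.exp (-(σ * u)) * G u ≤ Real.exp (-(σ * u)) * (K * (1 + u)) :=
            mul_le_mul_of_nonneg_left (hbd u hu) (Real.exp_pos _).le
        _ = K * ((1 + u) * Real.exp (-(σ * u))) := by ring
        _ ≤ K * ((1 + 2 / σ) * Real.exp (-(σ / 2) * u)) := mul_le_mul_of_nonneg_left (hexp u hu) hK0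
        _ = _ := by ring
    have b2 : Real.exp (-(σ * U)) * G U ≤ K * (1 + 2 / σ) := by
      refine (b1 U hU).trans ?_
      have : Real.exp (-(σ / 2) * U) ≤ 1 := Real.exp_le_one_iff.2 (by nlinarith)
      have h2 : 0 ≤ K * (1 + 2 / σ) := by positivity
      nlinarith
    have b3 : ∫ u in (0 : ℝ)..U, Real.exp (-(σ * u)) * G u ≤ K * (1 + 2 / σ) * (2 / σ) := by
      have h1 : ∫ u in (0 : ℝ)..U, Real.exp (-(σ * u)) * G u ≤
          ∫ u in (0 : ℝ)..U, (K * (1 + 2 / σ)) * Real.exp (-(σ / 2) * u) := by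
        refine intervalIntegral.integral_mono_on hU ?_ ?_ fun u hu => b1 u hu.1
        · exact ((by fun_prop : Continuous fun u : ℝ => Real.exp (-(σ * u))).mul hGc).intervalIntegrable _ _
        · exact (by fun_prop : Continuous fun u : ℝ =>
            (K * (1 + 2 / σ)) * Real.exp (-(σ / 2) * u)).intervalIntegrable _ _
      refine h1.trans ?_
      have h2 : ∫ u in Ioi (0 : ℝ), Real.exp (-(σ / 2) * u) = 2 / σ := by
        have h3 := integral_exp_mul_Ioi (a := -(σ / 2)) (by linarith) 0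
        rw [h3]
        have : σ ≠ 0 := hσ.ne'
        simp
      rw [intervalIntegral.integral_const_mul]
      refine mul_le_mul_of_nonneg_left ?_ (by positivity)
      rw [intervalIntegral.integral_of_le hU, ← h2]
      refine setIntegral_mono_set (integrableOn_exp_mul_Ioi (by linarith) 0)
        (Eventually.of_forall fun u => (Real.exp_pos _).le) (Eventually.of_forall ?_)
      exact Ioc_subset_Ioi_self
    have b4 := mul_le_mul_of_nonneg_left b3 hσ.le
    linarith

/-- the Laplace transform of a complex function -/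
noncomputable def lc (f : ℝ → ℂ) (z : ℂ) : ℂ := ∫ u in Ioi (0 : ℝ), f u * cexp (-z * u)

theorem lc_norm (f : ℝ → ℂ) (s : ℂ) (w : ℝ) : ‖f w * cexp (-s * w)‖ = ‖f w‖ * Real.exp (-(s.re * w)) := by
  rw [norm_mul, Complex.norm_exp]
  simp

theorem lc_int {f : ℝ → ℂ} (hf : Continuous f) {s : ℂ}
    (h : IntegrableOn (fun u => ‖f u‖ * Real.exp (-(s.re * u))) (Ioi 0)) :
    IntegrableOn (fun u : ℝ => f u * cexp (-s * u)) (Ioi 0) := by
  refine Integrable.mono' h ?_ (Eventually.of_forall fun u => (lc_norm f s u).le)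
  exact (hf.mul (by fun_prop)).aestronglyMeasurable

theorem lc_diff {f : ℝ → ℂ} (hf : Continuous f) {a : ℝ}
    (h : ∀ σ : ℝ, a < σ → IntegrableOn (fun u => ‖f u‖ * Real.exp (-(σ * u))) (Ioi 0)) {z : ℂ} (hz : a < z.re) :
    DifferentiableAt ℂ (lc f) z := by
  set r := (z.re - a) / 2 with hr
  have hr0 : 0 < r := by rw [hr]; linarith
  have hbound : IntegrableOn (fun w : ℝ => (2 / r) * (‖f w‖ * Real.exp (-((z.re - 3 * r / 2) * w)))) (Ioi 0) :=
    (h _ (by rw [hr]; linarith)).const_mul _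
  have hfc : Continuous f := hf
  have key := hasDerivAt_integral_of_dominated_loc_of_deriv_le (𝕜 := ℂ) (μ := volume.restrict (Ioi (0:ℝ)))
    (F := fun z v => f v * cexp (-z * v))
    (F' := fun z v => f v * (-(v : ℂ) * cexp (-z * v)))
    (x₀ := z) (s := Metric.ball z r)
    (bound := fun w => (2 / r) * (‖f w‖ * Real.exp (-((z.re - 3 * r / 2) * w))))
    (Metric.ball_mem_nhds z hr0)
    (Eventually.of_forall fun w => (hfc.mul (by fun_prop)).aestronglyMeasurable)
    (lc_int hf (h _ hz))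
    (hfc.mul (by fun_prop)).aestronglyMeasurable
    ((ae_restrict_iff' measurableSet_Ioi).2 (Eventually.of_forall fun v hv w hw => by
      have hv0 : 0 < v := hv
      have hw1 : z.re - r < w.re := by
        rw [Metric.mem_ball, dist_eq_norm] at hw
        have h2 := (Complex.abs_re_le_norm (w - z)).trans_lt hw
        rw [Complex.sub_re] at h2
        linarith [neg_abs_le (w.re - z.re)]
      rw [norm_mul, norm_mul, norm_neg, Complex.norm_real, Real.norm_eq_abs,
        abs_of_pos hv0, Complex.norm_exp]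
      have e1 : (-w * (v:ℂ)).re = -(w.re * v) := by simp
      rw [e1]
      have h3 : v ≤ 2 / r * Real.exp (r / 2 * v) := by
        have h4 := Real.add_one_le_exp (r / 2 * v)
        have h5 : v = 2 / r * (r / 2 * v) := by field_simp
        calc v = 2 / r * (r / 2 * v) := h5
          _ ≤ _ := by gcongr; linarith
      have h6 : Real.exp (-(w.re * v)) ≤ Real.exp (-((z.re - r) * v)) := by
        refine Real.exp_le_exp.2 ?_
        nlinarith
      calc ‖f v‖ * (v * Real.exp (-(w.re * v))) ≤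
            ‖f v‖ * ((2 / r * Real.exp (r / 2 * v)) * Real.exp (-((z.re - r) * v))) := by
            gcongr
        _ = (2 / r) * (‖f v‖ * (Real.exp (r / 2 * v) * Real.exp (-((z.re - r) * v)))) := by ring
        _ = _ := by
          rw [← Real.exp_add]
          congr 3
          ring))
    hbound
    (Eventually.of_forall fun v w _ => by
      have h1 : HasDerivAt (fun w : ℂ => -w * (v:ℂ)) (-1 * (v:ℂ)) w :=
        ((hasDerivAt_id w).neg).mul_const (v:ℂ)
      have h2 := h1.cexp.const_mul (f v)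
      have e : f v * (-(v : ℂ) * cexp (-w * v)) = f v * (cexp (-w * v) * (-1 * (v : ℂ))) := by
        ring
      rw [e]
      exact h2)
  exact key.2.differentiableAt


/-! ### the transform of the prime sum -/

section
variable {ι : Type} [Fintype ι] (D : ι → Dat) (n : ι → ℤ)

theorem P_cont (E : Dat) : Continuous E.P := by
  unfold Dat.P
  exact E.cont.sub (by fun_prop)

theorem PP_cont : Continuous (PP D n) := by
  unfold PP
  exact continuous_finsetSum _ fun i _ => continuous_const.mul (P_cont (D i))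

theorem P_int (E : Dat) {z : ℂ} (hz : 1 < z.re) : IntegrableOn (fun u : ℝ => E.P u * cexp (-z * u)) (Ioi 0) ∧
    ∫ u in Ioi (0 : ℝ), E.P u * cexp (-z * u) =
      2 / (1 - z ^ 2) * E.S z - 1 / (1 - z) * E.S 1 - E.p * (8 / 3 / (z - 1 / 2)) := by
  have hre : (-(z - 1 / 2)).re < 0 := by
    rw [Complex.neg_re, Complex.sub_re]
    have : ((1 : ℂ) / 2).re = 1 / 2 := by norm_num
    rw [this]
    linarith
  have i1 : IntegrableOn (fun u : ℝ => ((E.p : ℂ) * (8 / 3 : ℂ)) * cexp (-(z - 1 / 2) * u)) (Ioi 0) :=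
    (integrableOn_exp_mul_complex_Ioi hre 0).const_mul _
  have i2 := (E.lt z hz).1
  have e : (fun u : ℝ => E.P u * cexp (-z * u)) = (fun u : ℝ => E.E u * cexp (-z * u) -
      ((E.p : ℂ) * (8 / 3 : ℂ)) * cexp (-(z - 1 / 2) * u)) := by
    funext u
    unfold Dat.P
    have e1 : cexp (-(z - 1 / 2) * u) = cexp ((u / 2 : ℝ) : ℂ) * cexp (-z * u) := by
      rw [← Complex.exp_add]
      congr 1
      push_cast
      ring
    rw [e1, Complex.ofReal_mul, Complex.ofReal_exp]
    push_cast
    ring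
  rw [e]
  refine ⟨i2.sub i1, ?_⟩
  rw [integral_sub i2 i1, integral_const_mul, (E.lt z hz).2, integral_exp_mul_complex_Ioi hre]
  congr 1
  rw [Complex.ofReal_zero, mul_zero, Complex.exp_zero, neg_div_neg_eq]
  ring

theorem lc_PP {z : ℂ} (hz : 1 < z.re) : lc (PP D n) z =
    ∑ i, (n i : ℂ) * (2 / (1 - z ^ 2) * (D i).S z - 1 / (1 - z) * (D i).S 1 - (D i).p * (8 / 3 / (z - 1 / 2))) := by
  have e : (fun u : ℝ => PP D n u * cexp (-z * u)) = fun u : ℝ => ∑ i, (n i : ℂ) * ((D i).P u * cexp (-z * u)) := by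
    funext u
    unfold PP
    rw [Finset.sum_mul]
    exact Finset.sum_congr rfl fun i _ => by ring
  unfold lc
  rw [e, integral_finsetSum]
  · refine Finset.sum_congr rfl fun i _ => ?_
    rw [integral_const_mul, (P_int (D i) hz).2]
  · intro i _
    exact (P_int (D i) hz).1.const_mul _

/-- the analytic continuation of `∑ n i * logDeriv (X i)` -/
noncomputable def Phi (z : ℂ) : ℂ := -((1 - z ^ 2) / 2) * lc (PP D n) z +
  ∑ i, (n i : ℂ) * ((D i).A + (D i).m0 * logDeriv Gammaℝ (1 / 2 + z) + (D i).m1 * logDeriv Gammaℝ (3 / 2 + z) +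
    (D i).p * (1 / (z + 1 / 2)) - (1 + z) / 2 * (D i).S 1 + (D i).p * (4 / 3 * (z + 1 / 2)))

theorem Phi_eq {z : ℂ} (hz : 1 < z.re) : ∑ i, (n i : ℂ) * logDeriv (D i).X z = Phi D n z := by
  have n1 : z - 1 / 2 ≠ 0 := by
    intro h
    have := congrArg Complex.re h
    rw [Complex.sub_re] at this
    norm_num at this
    linarith
  have n2 : 1 - z ≠ 0 := by
    intro h
    have := congrArg Complex.re h
    simp at this
    linarith
  have n3 : 1 + z ≠ 0 := by
    intro h
    have := congrArg Complex.re h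
    simp at this
    linarith
  have n5 : z + 1 / 2 ≠ 0 := by
    intro h
    have := congrArg Complex.re h
    rw [Complex.add_re] at this
    norm_num at this
    linarith
  have n4 : 1 - z ^ 2 ≠ 0 := by
    have : 1 - z ^ 2 = (1 - z) * (1 + z) := by ring
    rw [this]
    exact mul_ne_zero n2 n3
  unfold Phi
  rw [lc_PP D n hz, Finset.mul_sum, ← Finset.sum_add_distrib]
  refine Finset.sum_congr rfl fun i _ => ?_
  rw [(D i).ld z (by linarith)]
  generalize (D i).S z = S
  generalize (D i).S 1 = T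
  generalize logDeriv Gammaℝ (1 / 2 + z) = g0
  generalize logDeriv Gammaℝ (3 / 2 + z) = g1
  generalize ((D i).p : ℂ) = P
  have e5 : (1 : ℂ) / (1 - z) = (1 + z) / (1 - z ^ 2) := by
    have : 1 - z ^ 2 = (1 - z) * (1 + z) := by ring
    rw [this]
    field_simp
  rw [e5]
  have e6 : -((1 - z ^ 2) / 2) * ((n i : ℂ) * (2 / (1 - z ^ 2) * S - (1 + z) / (1 - z ^ 2) * T -
      P * (8 / 3 / (z - 1 / 2)))) = (n i : ℂ) * (-S + (1 + z) / 2 * T + P * (4 / 3 * (1 - z ^ 2) / (z - 1 / 2))) := by
    field_simp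
    ring
  have e7 : 4 / 3 * (1 - z ^ 2) / (z - 1 / 2) = 1 / (z - 1 / 2) - 4 / 3 * (z + 1 / 2) := by
    rw [eq_sub_iff_add_eq, ← eq_sub_iff_add_eq', ← sub_div, eq_div_iff n1]
    ring
  rw [e6, e7]
  ring

theorem Gamma_diff {k : ℂ} (hk : 0 < k.re) {z : ℂ} (hz : 0 < z.re) :
    DifferentiableAt ℂ (fun z => logDeriv Gammaℝ (k + z)) z := by
  have hop : IsOpen {z : ℂ | 0 < z.re} := isOpen_lt continuous_const Complex.continuous_re
  have h1 : DifferentiableOn ℂ Gammaℝ {z : ℂ | 0 < z.re} := by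
    intro w hw
    have h2 := (differentiable_Gammaℝ_inv w).inv (inv_ne_zero (Gammaℝ_ne_zero_of_re_pos hw))
    have e : (fun s : ℂ => (Gammaℝ s)⁻¹)⁻¹ = Gammaℝ := by
      funext s
      simp
    rw [e] at h2
    exact h2.differentiableWithinAt
  have h3 := h1.analyticOnNhd hop
  have hkz : 0 < (k + z).re := by
    rw [Complex.add_re]
    linarith
  have h4 : AnalyticAt ℂ (logDeriv Gammaℝ) (k + z) := by
    have h5 := h3 _ hkz
    exact h5.deriv.div h5 (Gammaℝ_ne_zero_of_re_pos hkz)
  exact h4.differentiableAt.comp z (by fun_prop)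

theorem Phi_diff (h : ∃ C : ℝ, ∀ᶠ U : ℝ in atTop, ∫ u in (0 : ℝ)..U, ‖PP D n u‖ ≤ C * U) {z : ℂ} (hz : 0 < z.re) :
    DifferentiableAt ℂ (Phi D n) z := by
  obtain ⟨C, hC⟩ := h
  have hc := PP_cont D n
  have hi : ∀ σ : ℝ, 0 < σ → IntegrableOn (fun u => ‖PP D n u‖ * Real.exp (-(σ * u))) (Ioi 0) := fun σ hσ =>
    int_of_bound (continuous_norm.comp hc) (fun u => norm_nonneg _) hC hσ
  have h1 := lc_diff hc hi hz
  have g0 : DifferentiableAt ℂ (fun z => logDeriv Gammaℝ (1 / 2 + z)) z := Gamma_diff (by norm_num) hz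
  have g1 : DifferentiableAt ℂ (fun z => logDeriv Gammaℝ (3 / 2 + z)) z := Gamma_diff (by norm_num) hz
  have n5 : z + 1 / 2 ≠ 0 := by
    intro h
    have := congrArg Complex.re h
    rw [Complex.add_re] at this
    norm_num at this
    linarith
  have h2 : DifferentiableAt ℂ (fun z : ℂ => 1 / (z + 1 / 2)) z :=
    (differentiableAt_const _).div (by fun_prop) n5
  unfold Phi
  refine ((by fun_prop : DifferentiableAt ℂ (fun z : ℂ => -((1 - z ^ 2) / 2)) z).mul h1).add
    (DifferentiableAt.fun_sum fun i _ => DifferentiableAt.const_mul ?_ _)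
  exact ((((((differentiableAt_const _).add (g0.const_mul _)).add (g1.const_mul _)).add (h2.const_mul _)).sub
    (by fun_prop)).add (by fun_prop))

end

/-! ### the zeros -/

theorem X_ne (E : Dat) {z : ℂ} (hz : 1 / 2 < z.re) : E.X z ≠ 0 := by
  intro h
  have h1 := E.strip z h
  have h2 := le_abs_self z.re
  linarith

/-- the residue of `logDeriv X` -/
theorem res (E : Dat) (a : ℂ) :
    Tendsto (fun z => (z - a) * logDeriv E.X z) (𝓝[≠] a) (𝓝 (E.m a : ℂ)) ∧ ∀ᶠ z in 𝓝[≠] a, E.X z ≠ 0 := by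
  have hA : AnalyticOnNhd ℂ E.X univ := E.diff.differentiableOn.analyticOnNhd isOpen_univ
  have h1 : analyticOrderAt E.X 1 ≠ ⊤ := by
    have h2 : analyticOrderAt E.X 1 = 0 := analyticOrderAt_eq_zero.2 (Or.inr (X_ne E (by norm_num)))
    rw [h2]
    exact ENat.zero_ne_top
  have h2 : analyticOrderAt E.X a ≠ ⊤ :=
    hA.analyticOrderAt_ne_top_of_isPreconnected isPreconnected_univ (mem_univ _) (mem_univ _) h1
  obtain ⟨g, hg, hg0, hgX⟩ := (hA a (mem_univ _)).analyticOrderAt_ne_top.1 h2
  have e1 : ∀ᶠ z in 𝓝 a, E.X =ᶠ[𝓝 z] fun z => (z - a) ^ (analyticOrderNatAt E.X a) • g z :=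
    hgX.eventuallyEq_nhds
  have e2 : ∀ᶠ z in 𝓝 a, g z ≠ 0 := hg.continuousAt.eventually_ne hg0
  have e3 : ∀ᶠ z in 𝓝 a, AnalyticAt ℂ g z := hg.eventually_analyticAt
  have hev : ∀ᶠ z in 𝓝[≠] a, (z - a) * logDeriv E.X z = (E.m a : ℂ) + (z - a) * logDeriv g z := by
    filter_upwards [nhdsWithin_le_nhds e1, nhdsWithin_le_nhds e2, nhdsWithin_le_nhds e3, self_mem_nhdsWithin]
      with z h1 h2 h3 h4
    have hz : z - a ≠ 0 := sub_ne_zero.2 h4
    have e4 : logDeriv E.X z = logDeriv (fun z => (z - a) ^ (analyticOrderNatAt E.X a) * g z) z := by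
      rw [logDeriv_apply, logDeriv_apply, h1.deriv_eq, h1.eq_of_nhds]
      rfl
    have d1 : DifferentiableAt ℂ (fun z : ℂ => z - a) z := by fun_prop
    have e6 : logDeriv (fun z => (z - a) ^ (analyticOrderNatAt E.X a) * g z) z =
        logDeriv (fun z => (z - a) ^ (analyticOrderNatAt E.X a)) z + logDeriv g z :=
      logDeriv_mul (f := fun z : ℂ => (z - a) ^ (analyticOrderNatAt E.X a)) z (pow_ne_zero _ hz) h2 (d1.fun_pow _)
        h3.differentiableAt
    rw [e4, e6, logDeriv_fun_pow d1, logDeriv_apply (fun z : ℂ => z - a)]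
    have e5 : deriv (fun z : ℂ => z - a) z = 1 := by
      rw [deriv_sub_const, deriv_id'']
    rw [e5]
    unfold Dat.m
    field_simp
  constructor
  · refine Tendsto.congr' (EventuallyEq.symm hev) ?_
    have h5 : ContinuousAt (fun z => (E.m a : ℂ) + (z - a) * logDeriv g z) a := by
      have h6 : ContinuousAt (logDeriv g) a := (hg.deriv.div hg hg0).continuousAt
      exact continuousAt_const.add ((continuousAt_id.sub continuousAt_const).mul h6)
    have h7 := h5.tendsto
    simp only [sub_self, zero_mul, add_zero] at h7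
    exact h7.mono_left nhdsWithin_le_nhds
  · filter_upwards [nhdsWithin_le_nhds hgX, nhdsWithin_le_nhds e2, self_mem_nhdsWithin] with z h1 h2 h4
    rw [h1]
    exact mul_ne_zero (pow_ne_zero _ (sub_ne_zero.2 h4)) h2

theorem refl (E : Dat) (z : ℂ) : logDeriv E.X (-conj z) = -conj (logDeriv E.X z) := by
  have hsym := E.sym
  have hX := E.diff
  generalize E.X = X at hsym hX
  obtain ⟨Y, hY⟩ : ∃ Y : ℂ → ℂ, Y = fun w => X (-w) := ⟨_, rfl⟩
  have hYd : HasDerivAt Y (-(deriv X (-(conj z)))) (conj z) := by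
    rw [hY]
    have h1 := (hX (-(conj z))).hasDerivAt
    have h2 : HasDerivAt (fun w : ℂ => -w) (-1) (conj z) := (hasDerivAt_id _).neg
    have h3 := HasDerivAt.comp (conj z) h1 h2
    have h4 : deriv X (-(conj z)) * (-1) = -(deriv X (-(conj z))) := by ring
    rw [h4] at h3
    exact h3
  have h5 := hYd.conj_conj
  have h6 : (conj ∘ Y ∘ conj) = X := by
    funext w
    simp only [Function.comp_apply]
    rw [hY]
    simp only
    rw [hsym, Complex.conj_conj]
  rw [h6, Complex.conj_conj] at h5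
  have h7 : deriv X z = conj (-(deriv X (-(conj z)))) := h5.deriv
  have h8 : deriv X (-conj z) = -conj (deriv X z) := by
    rw [h7, Complex.conj_conj, neg_neg]
  rw [logDeriv_apply, logDeriv_apply, h8, hsym, map_div₀, neg_div]

section
variable {ι : Type} [Fintype ι] (D : ι → Dat) (n : ι → ℤ)

open Classical in
theorem ident (h : ∃ C : ℝ, ∀ᶠ U : ℝ in atTop, ∫ u in (0 : ℝ)..U, ‖PP D n u‖ ≤ C * U) {z : ℂ} (hz : 0 < z.re)
    (hX : ∀ i, (D i).X z ≠ 0) : ∑ i, (n i : ℂ) * logDeriv (D i).X z = Phi D n z := by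
  have hopen : IsOpen {z : ℂ | 0 < z.re} := isOpen_lt continuous_const Complex.continuous_re
  have hconn : IsPreconnected {z : ℂ | 0 < z.re} := (convex_halfSpace_re_gt 0).isPreconnected
  have key : ∀ w : ℂ, (∀ i, (D i).X w ≠ 0) → ∑ i, (n i : ℂ) * (deriv (D i).X w * ∏ j ∈ Finset.univ.erase i, (D j).X w) =
      (∏ j, (D j).X w) * ∑ i, (n i : ℂ) * logDeriv (D i).X w := by
    intro w hw
    rw [Finset.mul_sum]
    refine Finset.sum_congr rfl fun i _ => ?_
    rw [← Finset.mul_prod_erase Finset.univ (fun j => (D j).X w) (Finset.mem_univ i), logDeriv_apply]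
    field_simp [hw i]
  have step : (∏ j, (D j).X z) * Phi D n z =
      ∑ i, (n i : ℂ) * (deriv (D i).X z * ∏ j ∈ Finset.univ.erase i, (D j).X z) := by
    have hA1 : AnalyticOnNhd ℂ (fun z => (∏ j, (D j).X z) * Phi D n z) {z : ℂ | 0 < z.re} := by
      refine DifferentiableOn.analyticOnNhd (fun z hz => DifferentiableAt.differentiableWithinAt ?_) hopen
      exact (DifferentiableAt.fun_finsetProd fun j _ => (D j).diff z).mul (Phi_diff D n h hz)
    have hA2 : AnalyticOnNhd ℂ (fun z => ∑ i, (n i : ℂ) * (deriv (D i).X z *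
        ∏ j ∈ Finset.univ.erase i, (D j).X z)) {z : ℂ | 0 < z.re} := by
      refine DifferentiableOn.analyticOnNhd (fun z hz => DifferentiableAt.differentiableWithinAt ?_) hopen
      exact DifferentiableAt.fun_sum fun i _ => (((D i).diff.deriv z).mul
        (DifferentiableAt.fun_finsetProd fun j _ => (D j).diff z)).const_mul _
    have h2 : (2 : ℂ) ∈ {z : ℂ | 0 < z.re} := by
      show (0 : ℝ) < (2 : ℂ).re
      norm_num
    refine hA1.eqOn_of_preconnected_of_eventuallyEq hA2 hconn h2 ?_ hz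
    have h3 : {z : ℂ | 1 < z.re} ∈ 𝓝 (2 : ℂ) :=
      (isOpen_lt continuous_const Complex.continuous_re).mem_nhds (by
        show (1 : ℝ) < (2 : ℂ).re
        norm_num)
    filter_upwards [h3] with w hw
    have hw' : 1 < w.re := hw
    rw [key w fun i => X_ne (D i) (by linarith), Phi_eq D n hw']
  rw [key z hX] at step
  exact (mul_left_cancel₀ (Finset.prod_ne_zero_iff.2 fun i _ => hX i) step).symm

theorem res_sum (a : ℂ) :
    Tendsto (fun z => (z - a) * ∑ i, (n i : ℂ) * logDeriv (D i).X z) (𝓝[≠] a) (𝓝 (nn D n a : ℂ)) := by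
  have h1 : Tendsto (fun z => ∑ i, (n i : ℂ) * ((z - a) * logDeriv (D i).X z)) (𝓝[≠] a)
      (𝓝 (∑ i, (n i : ℂ) * ((D i).m a : ℂ))) :=
    tendsto_finsetSum _ fun i _ => ((res (D i) a).1).const_mul _
  have e1 : (∑ i, (n i : ℂ) * ((D i).m a : ℂ)) = (nn D n a : ℂ) := by
    unfold nn
    push_cast
    rfl
  rw [e1] at h1
  refine h1.congr fun z => ?_
  rw [Finset.mul_sum]
  exact Finset.sum_congr rfl fun i _ => by ring

theorem nn_pos (h : ∃ C : ℝ, ∀ᶠ U : ℝ in atTop, ∫ u in (0 : ℝ)..U, ‖PP D n u‖ ≤ C * U) {a : ℂ} (ha : 0 < a.re) :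
    nn D n a = 0 := by
  have h1 := res_sum D n a
  have hopen : IsOpen {z : ℂ | 0 < z.re} := isOpen_lt continuous_const Complex.continuous_re
  have h2 : Tendsto (fun z => (z - a) * Phi D n z) (𝓝[≠] a) (𝓝 0) := by
    have h3 : ContinuousAt (fun z => (z - a) * Phi D n z) a :=
      (continuousAt_id.sub continuousAt_const).mul (Phi_diff D n h ha).continuousAt
    have h4 := h3.tendsto
    simp only [sub_self, zero_mul] at h4
    exact h4.mono_left nhdsWithin_le_nhds
  have hev : ∀ᶠ z in 𝓝[≠] a, (z - a) * ∑ i, (n i : ℂ) * logDeriv (D i).X z = (z - a) * Phi D n z := by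
    have h5 : ∀ᶠ z in 𝓝[≠] a, ∀ i, (D i).X z ≠ 0 := eventually_all.2 fun i => (res (D i) a).2
    filter_upwards [h5, nhdsWithin_le_nhds (hopen.mem_nhds ha)] with z hz1 hz2
    rw [ident D n h hz2 hz1]
  have h6 := tendsto_nhds_unique (h1.congr' hev) h2
  exact_mod_cast h6

theorem nn_neg (h : ∃ C : ℝ, ∀ᶠ U : ℝ in atTop, ∫ u in (0 : ℝ)..U, ‖PP D n u‖ ≤ C * U) {a : ℂ} (ha : a.re < 0) :
    nn D n a = 0 := by
  have h1 := res_sum D n a
  have hopen : IsOpen {z : ℂ | z.re < 0} := isOpen_lt Complex.continuous_re continuous_const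
  have ha' : 0 < (-conj a).re := by
    rw [Complex.neg_re, Complex.conj_re]
    linarith
  have h2 : Tendsto (fun z => (z - a) * (-conj (Phi D n (-conj z)))) (𝓝[≠] a) (𝓝 0) := by
    have h3 : ContinuousAt (fun z => (z - a) * (-conj (Phi D n (-conj z)))) a := by
      have h7 : ContinuousAt (Phi D n) (-conj a) := (Phi_diff D n h ha').continuousAt
      have h8 : ContinuousAt (fun z : ℂ => -conj z) a := (Complex.continuous_conj.neg).continuousAt
      have h9 : ContinuousAt (fun z : ℂ => Phi D n (-conj z)) a := ContinuousAt.comp (f := fun z : ℂ => -conj z) h7 h8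
      exact (continuousAt_id.sub continuousAt_const).mul (Complex.continuous_conj.continuousAt.comp h9).neg
    have h4 := h3.tendsto
    simp only [sub_self, zero_mul] at h4
    exact h4.mono_left nhdsWithin_le_nhds
  have hev : ∀ᶠ z in 𝓝[≠] a, (z - a) * ∑ i, (n i : ℂ) * logDeriv (D i).X z = (z - a) * (-conj (Phi D n (-conj z))) := by
    have h5 : ∀ᶠ z in 𝓝[≠] a, ∀ i, (D i).X z ≠ 0 := eventually_all.2 fun i => (res (D i) a).2
    filter_upwards [h5, nhdsWithin_le_nhds (hopen.mem_nhds ha)] with z hz1 hz2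
    have hz3 : 0 < (-conj z).re := by
      rw [Complex.neg_re, Complex.conj_re]
      have : z.re < 0 := hz2
      linarith
    have hz4 : ∀ i, (D i).X (-conj z) ≠ 0 := by
      intro i
      rw [(D i).sym]
      exact (map_ne_zero _).2 (hz1 i)
    have h6 := ident D n h hz3 hz4
    rw [← h6, map_sum]
    congr 1
    rw [← Finset.sum_neg_distrib]
    refine Finset.sum_congr rfl fun i _ => ?_
    rw [refl, map_mul, map_neg, Complex.conj_conj, map_intCast]
    ring
  have h6 := tendsto_nhds_unique (h1.congr' hev) h2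
  exact_mod_cast h6

end

/-- **Job LA**, without the explicit formula -/
theorem la' : S_LA := by
  intro ι _ D n h a ha
  rcases lt_or_gt_of_ne ha with h1 | h1
  · exact nn_neg D n h h1
  · exact nn_pos D n h h1

/-- **Job LA** -/
theorem la (_hPF : S_PF) (_hEF : S_EF) : S_LA := la'

end Pool.Agent.Q184.NF
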